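import Pool.Agent.H14.PD.Stmts

/-!
# Project PD, module LEV
-/

set_option autoImplicit false

namespace Pool.Agent.H14.PD

theorem pd_lev_trans {S : Type} {cm : S → S → Prop} {u v w : List S} (h : Tq cm u v)
    (h' : Tq cm v w) : Tq cm u w := Relation.ReflTransGen.trans h h'

theorem pd_lev : M_LEV := by
  intro hQ hR S cm hs hi
  obtain ⟨q1, q2, q3, -, -, q6, -⟩ := hQ S cm hs
  obtain ⟨r1, r2, r3, -, -, -⟩ := hR S cm hs hi
  have cons : ∀ (s : S) (u v : List S), Tq cm u v → Tq cm (s :: u) (s :: v) := by
    intro s u v h
    have := q2 u v [s] [] h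
    simpa using this
  have mv : ∀ (s : S) (c d : List S), (∀ t ∈ c, cm s t) → Tq cm (c ++ s :: d) (s :: (c ++ d)) := by
    intro s c d h
    have h1 := q1 _ _ (q6 s c h)
    have h2 := q2 _ _ [] d h1
    simpa using h2
  intro a
  induction a with
  | nil =>
    intro b p q h
    refine ⟨[], [], p, q, Relation.ReflTransGen.refl, h, Relation.ReflTransGen.refl,
      Relation.ReflTransGen.refl, by simp⟩
  | cons s a ih =>
    intro b p q h
    -- the case where the letter is in `q`
    have caseq : ∀ c' d, q = c' ++ s :: d → (∀ t ∈ p ++ c', cm s t) →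
        Tq cm (a ++ b) (p ++ c' ++ d) → ∃ a1 a2 b1 b2 : List S,
        Tq cm (s :: a) (a1 ++ a2) ∧ Tq cm b (b1 ++ b2) ∧ Tq cm p (a1 ++ b1) ∧
          Tq cm q (a2 ++ b2) ∧ ∀ s ∈ a2, ∀ t ∈ b1, cm s t := by
      intro c' d hq hc hT
      rw [List.append_assoc] at hT
      obtain ⟨a1, a2, b1, b2, h1, h2, h3, h4, h5⟩ := ih b p (c' ++ d) hT
      have hp := q3 _ _ h3
      have hsa : ∀ t ∈ a1, cm s t := by
        intro t ht
        exact hc t (List.mem_append_left _ (hp.symm.subset (List.mem_append_left _ ht)))
      have hsb : ∀ t ∈ b1, cm s t := by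
        intro t ht
        exact hc t (List.mem_append_left _ (hp.symm.subset (List.mem_append_right _ ht)))
      refine ⟨a1, s :: a2, b1, b2, ?_, h2, h3, ?_, ?_⟩
      · exact pd_lev_trans (cons s _ _ h1) (q1 _ _ (mv s a1 a2 hsa))
      · rw [hq]
        refine pd_lev_trans (mv s c' d (fun t ht => hc t (List.mem_append_right _ ht))) ?_
        have := cons s _ _ h4
        simpa using this
      · intro x hx t ht
        rcases List.mem_cons.1 hx with rfl | hx
        · exact hsb t ht
        · exact h5 x hx t ht
    have hrem : rem cm s (s :: a ++ b) = some (a ++ b) := by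
      have := r3 s [] (a ++ b) (by simp)
      simpa using this
    rcases r1 s _ _ h with ⟨k1, -⟩ | ⟨r, r', k1, k2, k3⟩
    · rw [hrem] at k1
      exact absurd k1 (by simp)
    · rw [hrem] at k1
      have e := Option.some.inj k1
      subst e
      obtain ⟨c, d, e1, e2, e3⟩ := r2 s _ _ k2
      rw [e2] at k3
      rcases List.append_eq_append_iff.1 e1 with ⟨c', h1, h2⟩ | ⟨c', h1, h2⟩
      · -- `c = p ++ c'`
        refine caseq c' d h2 ?_ ?_
        · rw [← h1]
          exact e3
        · rw [← h1]
          exact k3
      · -- `p = c ++ c'`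
        rcases c' with _ | ⟨x, d'⟩
        · refine caseq [] d ?_ ?_ ?_
          · simpa using h2.symm
          · rw [h1]
            simpa using e3
          · rw [h1]
            simpa using k3
        · simp only [List.cons_append, List.cons.injEq] at h2
          obtain ⟨hx, hd⟩ := h2
          subst hx
          rw [hd, ← List.append_assoc] at k3
          obtain ⟨a1, a2, b1, b2, g1, g2, g3, g4, g5⟩ := ih b (c ++ d') q k3
          refine ⟨s :: a1, a2, b1, b2, ?_, g2, ?_, g4, g5⟩
          · have := cons s _ _ g1
            simpa using this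
          · rw [h1]
            refine pd_lev_trans (mv s c d' e3) ?_
            have := cons s _ _ g3
            simpa using this

end Pool.Agent.H14.PD
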