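import Pool.Agent.H14.PD.Stmts

/-!
# Project PD, module REM
-/

set_option autoImplicit false

namespace Pool.Agent.H14.PD

theorem pd_rem_same {S : Type} (cm : S → S → Prop) (s : S) (w : List S) :
    rem cm s (s :: w) = some w := by
  simp [rem]

theorem pd_rem_cm {S : Type} (cm : S → S → Prop) {s t : S} (w : List S) (h : t ≠ s)
    (hc : cm s t) : rem cm s (t :: w) = (rem cm s w).map (fun r => t :: r) := by
  simp [rem, h, hc]

theorem pd_rem_ncm {S : Type} (cm : S → S → Prop) {s t : S} (w : List S) (h : t ≠ s)
    (hc : ¬ cm s t) : rem cm s (t :: w) = none := by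
  simp [rem, h, hc]

/-- the relation of (i) -/
def pd_rem_R {S : Type} (cm : S → S → Prop) (s : S) (w w' : List S) : Prop :=
  (rem cm s w = none ∧ rem cm s w' = none) ∨
    ∃ r r', rem cm s w = some r ∧ rem cm s w' = some r' ∧ Tq cm r r'

theorem pd_rem_refl {S : Type} (cm : S → S → Prop) (s : S) (w : List S) :
    pd_rem_R cm s w w := by
  unfold pd_rem_R
  rcases h : rem cm s w with _ | r
  · exact Or.inl ⟨rfl, rfl⟩
  · exact Or.inr ⟨r, r, rfl, rfl, Relation.ReflTransGen.refl⟩

theorem pd_rem_trans {S : Type} (cm : S → S → Prop) (s : S) {w w' w'' : List S}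
    (h : pd_rem_R cm s w w') (h' : pd_rem_R cm s w' w'') : pd_rem_R cm s w w'' := by
  rcases h with ⟨h1, h2⟩ | ⟨r, r', h1, h2, h3⟩
  · rcases h' with ⟨k1, k2⟩ | ⟨q, q', k1, k2, k3⟩
    · exact Or.inl ⟨h1, k2⟩
    · rw [h2] at k1
      exact absurd k1 (by simp)
  · rcases h' with ⟨k1, k2⟩ | ⟨q, q', k1, k2, k3⟩
    · rw [h2] at k1
      exact absurd k1 (by simp)
    · rw [h2] at k1
      have : r' = q := Option.some.inj k1
      subst this
      exact Or.inr ⟨r, q', h1, k2, Relation.ReflTransGen.trans h3 k3⟩

theorem pd_rem_cons {S : Type} (cm : S → S → Prop) (c : S) {r r' : List S} (h : Tq cm r r') :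
    Tq cm (c :: r) (c :: r') := by
  induction h with
  | refl => exact Relation.ReflTransGen.refl
  | @tail x y h1 h2 ih =>
    refine Relation.ReflTransGen.tail ih ?_
    obtain ⟨a, b, s, t, hc⟩ := h2
    exact Sw.mk (c :: a) b s t hc

theorem pd_rem_step {S : Type} (cm : S → S → Prop) (hs : ∀ s t, cm s t → cm t s)
    (hi : ∀ s, ¬ cm s s) (s : S) {w w' : List S} (h : Sw cm w w') : pd_rem_R cm s w w' := by
  obtain ⟨a, b, x, y, hc⟩ := h
  induction a with
  | nil =>
    simp only [List.nil_append]
    by_cases hx : x = s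
    · subst hx
      have hy : y ≠ x := by
        rintro rfl
        exact hi _ hc
      refine Or.inr ⟨y :: b, y :: b, pd_rem_same _ _ _, ?_, Relation.ReflTransGen.refl⟩
      rw [pd_rem_cm cm _ hy hc, pd_rem_same]
      rfl
    · by_cases hy : y = s
      · subst hy
        refine Or.inr ⟨x :: b, x :: b, ?_, pd_rem_same _ _ _, Relation.ReflTransGen.refl⟩
        rw [pd_rem_cm cm _ hx (hs _ _ hc), pd_rem_same]
        rfl
      · by_cases h1 : cm s x
        · by_cases h2 : cm s y
          · unfold pd_rem_R
            rw [pd_rem_cm cm _ hx h1, pd_rem_cm cm _ hy h2, pd_rem_cm cm _ hy h2,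
              pd_rem_cm cm _ hx h1]
            rcases h : rem cm s b with _ | r
            · exact Or.inl ⟨rfl, rfl⟩
            · refine Or.inr ⟨x :: y :: r, y :: x :: r, rfl, rfl, ?_⟩
              exact Relation.ReflTransGen.single (Sw.mk [] r x y hc)
          · left
            rw [pd_rem_cm cm _ hx h1, pd_rem_ncm cm _ hy h2, pd_rem_ncm cm _ hy h2]
            exact ⟨rfl, rfl⟩
        · left
          rw [pd_rem_ncm cm _ hx h1]
          refine ⟨rfl, ?_⟩
          by_cases h2 : cm s y
          · rw [pd_rem_cm cm _ hy h2, pd_rem_ncm cm _ hx h1]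
            rfl
          · rw [pd_rem_ncm cm _ hy h2]
  | cons c a ih =>
    simp only [List.cons_append]
    have hT : Tq cm (a ++ x :: y :: b) (a ++ y :: x :: b) :=
      Relation.ReflTransGen.single (Sw.mk a b x y hc)
    by_cases h : c = s
    · subst h
      exact Or.inr ⟨_, _, pd_rem_same _ _ _, pd_rem_same _ _ _, hT⟩
    · by_cases h1 : cm s c
      · unfold pd_rem_R
        rw [pd_rem_cm cm _ h h1, pd_rem_cm cm _ h h1]
        rcases ih with ⟨k1, k2⟩ | ⟨r, r', k1, k2, k3⟩
        · left
          rw [k1, k2]
          exact ⟨rfl, rfl⟩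
        · right
          rw [k1, k2]
          exact ⟨c :: r, c :: r', rfl, rfl, pd_rem_cons cm c k3⟩
      · left
        rw [pd_rem_ncm cm _ h h1, pd_rem_ncm cm _ h h1]
        exact ⟨rfl, rfl⟩

theorem pd_rem_i {S : Type} (cm : S → S → Prop) (hs : ∀ s t, cm s t → cm t s)
    (hi : ∀ s, ¬ cm s s) (s : S) {w w' : List S} (h : Tq cm w w') : pd_rem_R cm s w w' := by
  induction h with
  | refl => exact pd_rem_refl cm s w
  | @tail x y h1 h2 ih => exact pd_rem_trans cm s ih (pd_rem_step cm hs hi s h2)

theorem pd_rem_ii {S : Type} (cm : S → S → Prop) (s : S) : ∀ w r, rem cm s w = some r →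
    ∃ a b, w = a ++ s :: b ∧ r = a ++ b ∧ ∀ t ∈ a, cm s t := by
  intro w
  induction w with
  | nil =>
    intro r h
    simp [rem] at h
  | cons c w ih =>
    intro r h
    by_cases hc : c = s
    · subst hc
      rw [pd_rem_same] at h
      have := Option.some.inj h
      exact ⟨[], w, rfl, this.symm, by simp⟩
    · by_cases h1 : cm s c
      · rw [pd_rem_cm cm _ hc h1, Option.map_eq_some_iff] at h
        obtain ⟨r', h2, h3⟩ := h
        obtain ⟨a, b, h4, h5, h6⟩ := ih r' h2
        refine ⟨c :: a, b, by rw [h4]; rfl, by rw [← h3, h5]; rfl, ?_⟩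
        intro t ht
        rcases List.mem_cons.1 ht with rfl | ht
        · exact h1
        · exact h6 t ht
      · rw [pd_rem_ncm cm _ hc h1] at h
        exact absurd h (by simp)

theorem pd_rem_iii {S : Type} (cm : S → S → Prop) (hi : ∀ s, ¬ cm s s) (s : S) :
    ∀ a b : List S, (∀ t ∈ a, cm s t) → rem cm s (a ++ s :: b) = some (a ++ b) := by
  intro a b h
  induction a with
  | nil => exact pd_rem_same cm s b
  | cons c a ih =>
    have hc : cm s c := h c (by simp)
    have hne : c ≠ s := by
      rintro rfl
      exact hi _ hc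
    simp only [List.cons_append]
    rw [pd_rem_cm cm _ hne hc, ih (fun t ht => h t (List.mem_cons_of_mem _ ht))]
    rfl

theorem pd_rem : M_REM := by
  intro _ S cm hs hi
  refine ⟨fun s w w' h => pd_rem_i cm hs hi s h, pd_rem_ii cm, pd_rem_iii cm hi, ?_, ?_, ?_⟩
  · intro s w h a b he
    by_contra hcon
    push Not at hcon
    rw [he, pd_rem_iii cm hi s a b hcon] at h
    exact absurd h (by simp)
  · intro s t w
    induction w with
    | nil =>
      intro w1 w2 _ h1
      simp [rem] at h1
    | cons c w ih =>
      intro w1 w2 hst h1 h2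
      have hne : t ≠ s := by
        rintro rfl
        exact hi _ hst
      by_cases hcs : c = s
      · subst hcs
        rw [pd_rem_same] at h1
        have e1 := Option.some.inj h1
        subst e1
        rw [pd_rem_cm cm _ hne.symm (hs _ _ hst), Option.map_eq_some_iff] at h2
        obtain ⟨r, k1, k2⟩ := h2
        subst k2
        exact ⟨r, k1, pd_rem_same _ _ _⟩
      · by_cases hct : c = t
        · subst hct
          rw [pd_rem_same] at h2
          have e1 := Option.some.inj h2
          subst e1
          rw [pd_rem_cm cm _ hne hst, Option.map_eq_some_iff] at h1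
          obtain ⟨r, k1, k2⟩ := h1
          subst k2
          exact ⟨r, pd_rem_same _ _ _, k1⟩
        · by_cases k1 : cm s c
          · by_cases k2 : cm t c
            · rw [pd_rem_cm cm _ hcs k1, Option.map_eq_some_iff] at h1
              rw [pd_rem_cm cm _ hct k2, Option.map_eq_some_iff] at h2
              obtain ⟨r1, l1, l2⟩ := h1
              obtain ⟨r2, l3, l4⟩ := h2
              subst l2 l4
              obtain ⟨r3, m1, m2⟩ := ih r1 r2 hst l1 l3
              refine ⟨c :: r3, ?_, ?_⟩
              · rw [pd_rem_cm cm _ hct k2, m1]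
                rfl
              · rw [pd_rem_cm cm _ hcs k1, m2]
                rfl
            · rw [pd_rem_ncm cm _ hct k2] at h2
              exact absurd h2 (by simp)
          · rw [pd_rem_ncm cm _ hcs k1] at h1
            exact absurd h1 (by simp)
  · intro s t w
    induction w with
    | nil =>
      intro w2 _ _ h2
      simp [rem] at h2
    | cons c w ih =>
      intro w2 hst h1 h2
      have hne : t ≠ s := by
        rintro rfl
        exact hi _ hst
      have hcs : c ≠ s := by
        rintro rfl
        rw [pd_rem_same] at h1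
        exact absurd h1 (by simp)
      by_cases hct : c = t
      · subst hct
        rw [pd_rem_same] at h2
        have e1 := Option.some.inj h2
        subst e1
        rw [pd_rem_cm cm _ hne hst, Option.map_eq_none_iff] at h1
        exact h1
      · by_cases k2 : cm t c
        · rw [pd_rem_cm cm _ hct k2, Option.map_eq_some_iff] at h2
          obtain ⟨r2, l3, l4⟩ := h2
          subst l4
          by_cases k1 : cm s c
          · rw [pd_rem_cm cm _ hcs k1, Option.map_eq_none_iff] at h1
            rw [pd_rem_cm cm _ hcs k1, ih r2 hst h1 l3]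
            rfl
          · rw [pd_rem_ncm cm _ hcs k1]
        · rw [pd_rem_ncm cm _ hct k2] at h2
          exact absurd h2 (by simp)

end Pool.Agent.H14.PD
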