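import Pool.Agent.H14.PD.Stmts

/-!
# Project PD, module VDW
-/

set_option autoImplicit false

namespace Pool.Agent.H14.PD

section

variable {S : Type} {cm : S → S → Prop}

/-- multiplication by a letter on reduced words -/
noncomputable def pd_vdw_stp (cm : S → S → Prop) (s : S) (w : List S) : List S :=
  (rem cm s w).getD (s :: w)

theorem pd_vdw_some {s : S} {w r : List S} (h : rem cm s w = some r) :
    pd_vdw_stp cm s w = r := by
  simp [pd_vdw_stp, h]

theorem pd_vdw_none {s : S} {w : List S} (h : rem cm s w = none) :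
    pd_vdw_stp cm s w = s :: w := by
  simp [pd_vdw_stp, h]

theorem pd_vdw_cm {s t : S} (w : List S) (h : t ≠ s)
    (hc : cm s t) : rem cm s (t :: w) = (rem cm s w).map (fun r => t :: r) := by
  simp [rem, h, hc]

/-- a reduced word beginning with `s` -/
theorem pd_vdw_head (hRd : ∀ s w r, rem cm s w = some r → ∃ a b, w = a ++ s :: b ∧ r = a ++ b ∧
    ∀ t ∈ a, cm s t) {s : S} {w : List S} (h : Rd cm (s :: w)) : rem cm s w = none := by
  rcases hr : rem cm s w with _ | r
  · rfl
  · obtain ⟨a, b, h1, h2, h3⟩ := hRd s w r hr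
    obtain ⟨t, ht, hc⟩ := h [] a b s (by rw [h1]; rfl)
    exact absurd (h3 t ht) hc

end

theorem pd_vdw : M_VDW := by
  intro hP hQ hB hT hR S cm hs hi u v hu hv huv
  obtain ⟨p1, p2, -, -, -, -⟩ := hP S cm
  obtain ⟨q1, q2, q3, -, -, q6, -⟩ := hQ S cm hs
  obtain ⟨b1, -, -, b4⟩ := hB S cm
  have t1 := hT S cm hs hi
  obtain ⟨r1, r2, r3, r4, r5, r6⟩ := hR S cm hs hi
  have mv : ∀ (s : S) (c d : List S), (∀ t ∈ c, cm s t) → Tq cm (c ++ s :: d) (s :: (c ++ d)) := by
    intro s c d h
    have h1 := q1 _ _ (q6 s c h)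
    have h2 := q2 _ _ [] d h1
    simpa using h2
  have rdtail : ∀ s w, Rd cm (s :: w) → Rd cm w := by
    intro s w h
    exact b1 [s] w [] (by simpa using h)
  -- (a)
  have stpRd : ∀ s w, Rd cm w → Rd cm (pd_vdw_stp cm s w) := by
    intro s w hw
    rcases hr : rem cm s w with _ | r
    · rw [pd_vdw_none hr]
      intro a x b y he
      rcases a with _ | ⟨z, a⟩
      · simp only [List.nil_append, List.cons.injEq] at he
        obtain ⟨e1, e2⟩ := he
        subst e1
        exact r4 s w hr x b e2
      · simp only [List.cons_append, List.cons.injEq] at he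
        exact hw a x b y he.2
    · rw [pd_vdw_some hr]
      obtain ⟨a, b, h1, h2, h3⟩ := r2 s w r hr
      have h4 := mv s a b h3
      rw [← h1, ← h2] at h4
      exact rdtail s r (t1 _ _ h4 hw)
  -- (b)
  have stpTq : ∀ s w w', Tq cm w w' → Tq cm (pd_vdw_stp cm s w) (pd_vdw_stp cm s w') := by
    intro s w w' h
    rcases r1 s w w' h with ⟨h1, h2⟩ | ⟨r, r', h1, h2, h3⟩
    · rw [pd_vdw_none h1, pd_vdw_none h2]
      have := q2 w w' [s] [] h
      simpa using this
    · rw [pd_vdw_some h1, pd_vdw_some h2]
      exact h3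
  -- (c)
  have stpInv : ∀ s w, Rd cm w → Tq cm (pd_vdw_stp cm s (pd_vdw_stp cm s w)) w := by
    intro s w hw
    rcases hr : rem cm s w with _ | r
    · rw [pd_vdw_none hr]
      have h1 := r3 s [] w (by simp)
      simp only [List.nil_append] at h1
      rw [pd_vdw_some h1]
      exact Relation.ReflTransGen.refl
    · rw [pd_vdw_some hr]
      obtain ⟨a, b, h1, h2, h3⟩ := r2 s w r hr
      have h4 := mv s a b h3
      rw [← h1, ← h2] at h4
      have h5 := pd_vdw_head r2 (t1 _ _ h4 hw)
      rw [pd_vdw_none h5]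
      exact q1 _ _ h4
  -- (d)
  have stpCm : ∀ s t w, cm s t →
      Tq cm (pd_vdw_stp cm s (pd_vdw_stp cm t w)) (pd_vdw_stp cm t (pd_vdw_stp cm s w)) := by
    intro s t w hst
    have hne : t ≠ s := by
      rintro rfl
      exact hi _ hst
    rcases h1 : rem cm s w with _ | w1
    · rcases h2 : rem cm t w with _ | w2
      · rw [pd_vdw_none h1, pd_vdw_none h2]
        have k1 : rem cm s (t :: w) = none := by
          rw [pd_vdw_cm _ hne hst, h1]
          rfl
        have k2 : rem cm t (s :: w) = none := by
          rw [pd_vdw_cm _ hne.symm (hs _ _ hst), h2]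
          rfl
        rw [pd_vdw_none k1, pd_vdw_none k2]
        exact Relation.ReflTransGen.single (Sw.mk [] w s t hst)
      · rw [pd_vdw_none h1, pd_vdw_some h2]
        have k1 := r6 s t w w2 hst h1 h2
        have k2 : rem cm t (s :: w) = some (s :: w2) := by
          rw [pd_vdw_cm _ hne.symm (hs _ _ hst), h2]
          rfl
        rw [pd_vdw_none k1, pd_vdw_some k2]
        exact Relation.ReflTransGen.refl
    · rcases h2 : rem cm t w with _ | w2
      · rw [pd_vdw_some h1, pd_vdw_none h2]
        have k1 := r6 t s w w1 (hs _ _ hst) h2 h1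
        have k2 : rem cm s (t :: w) = some (t :: w1) := by
          rw [pd_vdw_cm _ hne hst, h1]
          rfl
        rw [pd_vdw_none k1, pd_vdw_some k2]
        exact Relation.ReflTransGen.refl
      · rw [pd_vdw_some h1, pd_vdw_some h2]
        obtain ⟨w3, k1, k2⟩ := r5 s t w w1 w2 hst h1 h2
        rw [pd_vdw_some k1, pd_vdw_some k2]
        exact Relation.ReflTransGen.refl
  -- the set of classes
  let st : Setoid {w : List S // Rd cm w} :=
    { r := fun x y => Tq cm x.1 y.1
      iseqv := ⟨fun _ => Relation.ReflTransGen.refl, fun h => q1 _ _ h,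
        fun h h' => Relation.ReflTransGen.trans h h'⟩ }
  let act : S → Quotient st → Quotient st := fun s =>
    Quotient.map (fun x : {w : List S // Rd cm w} =>
      (⟨pd_vdw_stp cm s x.1, stpRd s x.1 x.2⟩ : {w : List S // Rd cm w}))
      (fun x y h => stpTq s x.1 y.1 h)
  have actmk : ∀ s (x : {w : List S // Rd cm w}), act s (Quotient.mk st x) =
      Quotient.mk st ⟨pd_vdw_stp cm s x.1, stpRd s x.1 x.2⟩ := fun s x => rfl
  have actinv : ∀ s x, act s (act s x) = x := by
    intro s x
    induction x using Quotient.inductionOn with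
    | h x =>
      rw [actmk, actmk]
      exact Quotient.sound (stpInv s x.1 x.2)
  have actcm : ∀ s t x, cm s t → act s (act t x) = act t (act s x) := by
    intro s t x hst
    induction x using Quotient.inductionOn with
    | h x =>
      rw [actmk, actmk, actmk, actmk]
      exact Quotient.sound (stpCm s t x.1 hst)
  let P : S → Equiv.Perm (Quotient st) := fun s => ⟨act s, act s, actinv s, actinv s⟩
  have PP : ∀ s, P s * P s = 1 := by
    intro s
    ext x
    exact actinv s x
  have Pcm : ∀ s t, cm s t → P s * P t = P t * P s := by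
    intro s t hst
    ext x
    exact actcm s t x hst
  have hrel : ∀ r ∈ wrel cm, FreeGroup.lift P r = 1 := by
    rintro r (⟨s, rfl⟩ | ⟨s, t, hst, rfl⟩)
    · rw [map_mul, FreeGroup.lift_apply_of]
      exact PP s
    · rw [map_mul, map_mul, map_mul, map_inv, map_inv, FreeGroup.lift_apply_of,
        FreeGroup.lift_apply_of, Pcm s t hst]
      group
  let F : Wg cm →* Equiv.Perm (Quotient st) := PresentedGroup.toGroup hrel
  have Fio : ∀ s, F (io cm s) = P s := by
    intro s
    exact PresentedGroup.toGroup.of hrel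
  have nilRd : Rd cm ([] : List S) := b4 [] (by simp)
  have key : ∀ w (hw : Rd cm w), F (pr cm w) (Quotient.mk st ⟨[], nilRd⟩) =
      Quotient.mk st ⟨w, hw⟩ := by
    intro w
    induction w with
    | nil =>
      intro hw
      rw [p1, map_one]
      rfl
    | cons s w ih =>
      intro hw
      rw [p2, map_mul, Fio]
      change act s (F (pr cm w) (Quotient.mk st ⟨[], nilRd⟩)) = _
      rw [ih (rdtail s w hw), actmk]
      refine Quotient.sound ?_
      change Tq cm (pd_vdw_stp cm s w) (s :: w)
      rw [pd_vdw_none (pd_vdw_head r2 hw)]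
      exact Relation.ReflTransGen.refl
  have h1 := key u hu
  have h2 := key v hv
  rw [huv, h2] at h1
  have h3 : Tq cm v u := Quotient.exact h1
  exact q1 _ _ h3

end Pool.Agent.H14.PD
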